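import Mathlib

set_option autoImplicit false

/-!
# The online token colouring game

Spoiler places tokens, one after the other, on the vertices of a fixed graph `G`.  A play of Spoiler is
the list `h` of the vertices that receive the tokens, in the order of placement.
-/

namespace Pool.Agent.Lib.MP_a6415b_co

/-- The token graph of the play `h`: its vertices are the tokens (token number `i` lies on the vertex
`h.get i` of `G`), and two distinct tokens are adjacent when they sit on the same vertex of `G` or on
two adjacent vertices of `G`. -/
def tokenGraph {V : Type} (G : SimpleGraph V) (h : List V) : SimpleGraph (Fin h.length) where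
  Adj i j := i ≠ j ∧ (h.get i = h.get j ∨ G.Adj (h.get i) (h.get j))
  symm := ⟨fun _ _ hij => ⟨hij.1.symm, hij.2.elim (fun e => Or.inl e.symm) (fun e => Or.inr e.symm)⟩⟩
  loopless := ⟨fun _ hi => hi.1 rfl⟩

/-- The play `h` of Spoiler is legal: after each of his moves, the token graph has chromatic number at
most `w`. -/
def Legal {V : Type} (w : ℕ) (G : SimpleGraph V) (h : List V) : Prop :=
  ∀ h' : List V, h' <+: h → (tokenGraph G h').chromaticNumber ≤ w

/-- A strategy of Algorithm is a function `σ : List V → ℕ`: if `h` is the list of the tokens placed so
far, the last one being the new token, then `σ h` is the colour which Algorithm gives to the new token.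
`colourOf σ h i` is the colour that token number `i` has received in the play `h`. -/
def colourOf {V : Type} (σ : List V → ℕ) (h : List V) (i : Fin h.length) : ℕ :=
  σ (h.take (i + 1))

/-- Against every legal play of Spoiler, the strategy `σ` keeps the colouring of the token graph proper
and never uses more than `N` colours. -/
def Guarantees {V : Type} (w : ℕ) (G : SimpleGraph V) (σ : List V → ℕ) (N : ℕ) : Prop :=
  ∀ h : List V, Legal w G h →
    (∀ i j : Fin h.length, (tokenGraph G h).Adj i j → colourOf σ h i ≠ colourOf σ h j) ∧
    (Finset.univ.image (colourOf σ h)).card ≤ N

/-- The value `f(w, G)` of the game: the least `N` such that Algorithm has a strategy that never uses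
more than `N` colours, whatever Spoiler does. -/
noncomputable def value {V : Type} (w : ℕ) (G : SimpleGraph V) : ℕ :=
  sInf {N : ℕ | ∃ σ : List V → ℕ, Guarantees w G σ N}

end Pool.Agent.Lib.MP_a6415b_co
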