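import Mathlib

set_option autoImplicit false

/-!
# The abstract forcing lemma

A presentation is a list `p` of finite sets of natural numbers: at time `j` Spoiler presents a new
vertex, adjacent to exactly the vertices presented at the times in `p[j]`.
-/

namespace Pool.Agent.Lib.MP_a6415b_co

/-- `χ` is a proper 2-colouring of the presentation `p`, and all the sets of `p` consist of earlier
times. -/
def Col (χ : ℕ → Bool) (p : List (Finset ℕ)) : Prop :=
  ∀ j (hj : j < p.length), ∀ i ∈ p[j], i < j ∧ χ i ≠ χ j

/-- The union of the colour sets of the vertices presented at the times in `I`. -/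
def U (A : List (Finset ℕ) → Finset ℕ) (p : List (Finset ℕ)) (I : Finset ℕ) : Finset ℕ :=
  I.biUnion fun i => A (p.take (i + 1))

/-- Properties of the responses `A` of Algorithm: the set of colours has size `a` and is disjoint
from the sets of the neighbours. -/
structure Resp (A : List (Finset ℕ) → Finset ℕ) (a M : ℕ) : Prop where
  card : ∀ (p : List (Finset ℕ)) (S : Finset ℕ), (∃ χ, Col χ (p ++ [S])) → p.length < M →
    (A (p ++ [S])).card = a
  disj : ∀ (p : List (Finset ℕ)) (S : Finset ℕ), (∃ χ, Col χ (p ++ [S])) → p.length < M →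
    ∀ i ∈ S, Disjoint (A (p.take (i + 1))) (A (p ++ [S]))

theorem U_append (A : List (Finset ℕ) → Finset ℕ) (p e : List (Finset ℕ)) (I : Finset ℕ)
    (hI : ∀ i ∈ I, i < p.length) : U A (p ++ e) I = U A p I := by
  unfold U
  apply Finset.biUnion_congr rfl
  intro i hi
  have : (p ++ e).take (i + 1) = p.take (i + 1) := by
    rw [List.take_append_of_le_length]
    have := hI i hi
    omega
  rw [this]

theorem Col.mono {χ : ℕ → Bool} {p e : List (Finset ℕ)} (h : Col χ (p ++ e)) : Col χ p := by
  intro j hj i hi
  have h1 : j < (p ++ e).length := by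
    rw [List.length_append]; omega
  have h2 : (p ++ e)[j] = p[j] := by
    rw [List.getElem_append_left hj]
  exact h j h1 i (by rw [h2]; exact hi)

theorem Col.snoc {χ χ' : ℕ → Bool} {p : List (Finset ℕ)} {S : Finset ℕ} (h : Col χ p)
    (hχ : ∀ i < p.length, χ' i = χ i) (hS : ∀ i ∈ S, i < p.length ∧ χ' i ≠ χ' p.length) :
    Col χ' (p ++ [S]) := by
  intro j hj i hi
  rcases Nat.lt_or_ge j p.length with h1 | h1
  · rw [List.getElem_append_left h1] at hi
    obtain ⟨h2, h3⟩ := h j h1 i hi
    refine ⟨h2, ?_⟩
    rw [hχ i (by omega), hχ j h1]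
    exact h3
  · have hj' : j = p.length := by
      rw [List.length_append, List.length_singleton] at hj
      omega
    subst hj'
    rw [List.getElem_append_right (le_refl _)] at hi
    simp only [Nat.sub_self, List.getElem_cons_zero] at hi
    exact hS i hi

theorem forcing {A : List (Finset ℕ) → Finset ℕ} {a M : ℕ} (hA : Resp A a M) :
    ∀ (k : ℕ) (p : List (Finset ℕ)), (∃ χ, Col χ p) → p.length + 2 ^ k ≤ M + 1 →
    ∃ (e : List (Finset ℕ)) (Y : Finset ℕ), e.length + 1 ≤ 2 ^ k ∧
      (∀ y ∈ Y, p.length ≤ y ∧ y < p.length + e.length) ∧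
      (∀ χ, Col χ p → ∀ b : Bool, ∃ χ', Col χ' (p ++ e) ∧ (∀ i < p.length, χ' i = χ i) ∧
        ∀ y ∈ Y, χ' y = b) ∧
      k * a ≤ 2 * (U A (p ++ e) Y).card := by
  intro k
  induction k with
  | zero =>
    intro p _ _
    refine ⟨[], ∅, by simp, by simp, ?_, by simp⟩
    intro χ hχ b
    exact ⟨χ, by simpa using hχ, fun _ _ => rfl, by simp⟩
  | succ k ih =>
    intro p hp hM
    have hpow : 2 ^ (k + 1) = 2 ^ k + 2 ^ k := by rw [pow_succ]; ring
    rw [hpow] at hM ⊢
    have hpos : 0 < 2 ^ k := Nat.two_pow_pos k
    generalize 2 ^ k = P at *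
    obtain ⟨e₁, R, he₁, hR, hχ₁, hcard₁⟩ := ih p hp (by omega)
    have hp₁ : ∃ χ, Col χ (p ++ e₁) := by
      obtain ⟨χ, hχ⟩ := hp
      obtain ⟨χ', h', _⟩ := hχ₁ χ hχ true
      exact ⟨χ', h'⟩
    have hlen₁ : (p ++ e₁).length = p.length + e₁.length := List.length_append
    obtain ⟨e₂, Y, he₂, hY, hχ₂, hcard₂⟩ := ih (p ++ e₁) hp₁ (by omega)
    have hlen₂ : (p ++ e₁ ++ e₂).length = p.length + e₁.length + e₂.length := by
      rw [List.length_append, hlen₁]
    have hUR : U A (p ++ e₁ ++ e₂) R = U A (p ++ e₁) R := by
      apply U_append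
      intro i hi
      have := hR i hi
      omega
    by_cases hcase : (k + 1) * a ≤ 2 * (U A (p ++ e₁ ++ e₂) (R ∪ Y)).card
    · -- first case: the two families together are large
      refine ⟨e₁ ++ e₂, R ∪ Y, ?_, ?_, ?_, ?_⟩
      · rw [List.length_append]; omega
      · intro y hy
        rw [List.length_append]
        rcases Finset.mem_union.1 hy with h | h
        · have := hR y h; omega
        · have := hY y h; omega
      · intro χ hχ b
        obtain ⟨χ₁, hc₁, ha₁, hb₁⟩ := hχ₁ χ hχ b
        obtain ⟨χ₂, hc₂, ha₂, hb₂⟩ := hχ₂ χ₁ hc₁ b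
        refine ⟨χ₂, by rwa [← List.append_assoc], ?_, ?_⟩
        · intro i hi
          rw [ha₂ i (by omega), ha₁ i hi]
        · intro y hy
          rcases Finset.mem_union.1 hy with h | h
          · have := hR y h
            rw [ha₂ y (by omega), hb₁ y h]
          · exact hb₂ y h
      · rw [← List.append_assoc]
        exact_mod_cast hcase
    · -- second case: present a new vertex adjacent to `Y`
      set z := (p ++ e₁ ++ e₂).length with hz
      have hcolz : ∀ χ, Col χ p → ∀ b : Bool, ∃ χ', Col χ' (p ++ e₁ ++ e₂ ++ [Y]) ∧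
          (∀ i < p.length, χ' i = χ i) ∧ ∀ y ∈ R ∪ {z}, χ' y = b := by
        intro χ hχ b
        obtain ⟨χ₁, hc₁, ha₁, hb₁⟩ := hχ₁ χ hχ b
        obtain ⟨χ₂, hc₂, ha₂, hb₂⟩ := hχ₂ χ₁ hc₁ (!b)
        have hne : ∀ i, i < z → Function.update χ₂ z b i = χ₂ i := by
          intro i hi
          exact Function.update_of_ne (by omega) _ _
        refine ⟨Function.update χ₂ z b, ?_, ?_, ?_⟩
        · apply Col.snoc hc₂
          · intro i hi
            exact hne i hi
          · intro i hi
            have h1 := hY i hi
            have h2 : i < z := by omega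
            refine ⟨h2, ?_⟩
            rw [hne i h2, hb₂ i hi, ← hz, Function.update_self]
            cases b <;> simp
        · intro i hi
          rw [hne i (by omega), ha₂ i (by omega), ha₁ i hi]
        · intro y hy
          rcases Finset.mem_union.1 hy with h | h
          · have := hR y h
            rw [hne y (by omega), ha₂ y (by omega), hb₁ y h]
          · rw [Finset.mem_singleton] at h
            rw [h, Function.update_self]
      have hexz : ∃ χ, Col χ (p ++ e₁ ++ e₂ ++ [Y]) := by
        obtain ⟨χ, hχ⟩ := hp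
        obtain ⟨χ', h', _⟩ := hcolz χ hχ true
        exact ⟨χ', h'⟩
      have hzM : (p ++ e₁ ++ e₂).length < M := by omega
      have hAcard : (A (p ++ e₁ ++ e₂ ++ [Y])).card = a := hA.card _ _ hexz hzM
      have hAdisj : Disjoint (U A (p ++ e₁ ++ e₂) Y) (A (p ++ e₁ ++ e₂ ++ [Y])) := by
        unfold U
        rw [Finset.disjoint_biUnion_left]
        intro i hi
        exact hA.disj _ _ hexz hzM i hi
      refine ⟨e₁ ++ e₂ ++ [Y], R ∪ {z}, ?_, ?_, ?_, ?_⟩
      · simp only [List.length_append, List.length_singleton]; omega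
      · intro y hy
        simp only [List.length_append, List.length_singleton]
        rcases Finset.mem_union.1 hy with h | h
        · have := hR y h; omega
        · rw [Finset.mem_singleton] at h
          omega
      · intro χ hχ b
        obtain ⟨χ', h1, h2, h3⟩ := hcolz χ hχ b
        refine ⟨χ', ?_, h2, h3⟩
        simpa only [List.append_assoc] using h1
      · have e1 : p ++ (e₁ ++ e₂ ++ [Y]) = p ++ e₁ ++ e₂ ++ [Y] := by
          simp only [List.append_assoc]
        rw [e1]
        have e2 : U A (p ++ e₁ ++ e₂ ++ [Y]) (R ∪ {z}) =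
            U A (p ++ e₁ ++ e₂) R ∪ A (p ++ e₁ ++ e₂ ++ [Y]) := by
          have h1 : U A (p ++ e₁ ++ e₂ ++ [Y]) (R ∪ {z}) =
              U A (p ++ e₁ ++ e₂ ++ [Y]) R ∪ U A (p ++ e₁ ++ e₂ ++ [Y]) {z} := by
            unfold U
            rw [Finset.union_biUnion]
          rw [h1, U_append A (p ++ e₁ ++ e₂) [Y] R]
          · congr 1
            unfold U
            rw [Finset.singleton_biUnion, List.take_of_length_le]
            rw [List.length_append, List.length_singleton]
          · intro i hi
            have := hR i hi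
            omega
        rw [e2]
        have e3 : U A (p ++ e₁ ++ e₂) (R ∪ Y) =
            U A (p ++ e₁ ++ e₂) R ∪ U A (p ++ e₁ ++ e₂) Y := by
          unfold U
          rw [Finset.union_biUnion]
        rw [e3] at hcase
        rw [← hUR] at hcard₁
        generalize U A (p ++ e₁ ++ e₂) R = UR at *
        generalize U A (p ++ e₁ ++ e₂) Y = UY at *
        generalize A (p ++ e₁ ++ e₂ ++ [Y]) = Z at *
        have i1 : (UR ∪ Z).card + (UR ∩ Z).card = UR.card + Z.card :=
          Finset.card_union_add_card_inter UR Z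
        have i2 : (UR ∩ Z).card ≤ (UR \ UY).card := by
          apply Finset.card_le_card
          intro x hx
          rw [Finset.mem_inter] at hx
          rw [Finset.mem_sdiff]
          exact ⟨hx.1, fun h => Finset.disjoint_left.1 hAdisj h hx.2⟩
        have i3 : (UR \ UY).card + UY.card = (UR ∪ UY).card :=
          Finset.card_sdiff_add_card UR UY
        push Not at hcase
        have i4 : (k + 1) * a = k * a + a := by ring
        omega

end Pool.Agent.Lib.MP_a6415b_co
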