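import Pool.Agent.Lib.MP_a6415b_co.Defs
import Pool.Agent.Lib.MP_a6415b_co.Forcing

set_option autoImplicit false

/-!
# Spoiler's strategy in the token colouring game
-/

namespace Pool.Agent.Lib.MP_a6415b_co

/-- The graph on which Spoiler plays: a vertex is a time `i < M` together with a set of times, and
`(i, S)`, `(j, T)` with `i < j` are adjacent exactly when `i ∈ T`. -/
def spoilerGraph (M : ℕ) : SimpleGraph (Fin M × Finset (Fin M)) where
  Adj x y := (x.1 < y.1 ∧ x.1 ∈ y.2) ∨ (y.1 < x.1 ∧ y.1 ∈ x.2)
  symm := ⟨fun _ _ h => h.symm⟩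
  loopless := ⟨fun _ h => by rcases h with h | h <;> exact absurd h.1 (lt_irrefl _)⟩

/-- The vertex played at time `j` when the new vertex shall be adjacent to the vertices played at the
times in `S`. -/
def vtx (K j : ℕ) (S : Finset ℕ) : Fin (K + 1) × Finset (Fin (K + 1)) :=
  (Fin.ofNat (K + 1) j, Finset.univ.filter fun x => (x : ℕ) ∈ S)

theorem vtx_fst (K j : ℕ) (S : Finset ℕ) (hj : j < K + 1) : ((vtx K j S).1 : ℕ) = j := by
  simp [vtx, Fin.ofNat, Nat.mod_eq_of_lt hj]

theorem adj_vtx (K i j : ℕ) (S T : Finset ℕ) (hi : i < K + 1) (hj : j < K + 1) :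
    (spoilerGraph (K + 1)).Adj (vtx K i S) (vtx K j T) ↔ (i < j ∧ i ∈ T) ∨ (j < i ∧ j ∈ S) := by
  have h1 := vtx_fst K i S hi
  have h2 := vtx_fst K j T hj
  have e1 : (vtx K i S).1 ∈ (vtx K j T).2 ↔ i ∈ T := by
    simp only [vtx, Finset.mem_filter, Finset.mem_univ, true_and]
    rw [show ((Fin.ofNat (K + 1) i : Fin (K + 1)) : ℕ) = i from h1]
  have e2 : (vtx K j T).1 ∈ (vtx K i S).2 ↔ j ∈ S := by
    simp only [vtx, Finset.mem_filter, Finset.mem_univ, true_and]
    rw [show ((Fin.ofNat (K + 1) j : Fin (K + 1)) : ℕ) = j from h2]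
  show ((vtx K i S).1 < (vtx K j T).1 ∧ (vtx K i S).1 ∈ (vtx K j T).2) ∨
    ((vtx K j T).1 < (vtx K i S).1 ∧ (vtx K j T).1 ∈ (vtx K i S).2) ↔ _
  rw [e1, e2, Fin.lt_def, Fin.lt_def, h1, h2]

/-- The list of tokens placed by Spoiler: `a` tokens on each vertex of the presentation `P`. -/
def tok (K a : ℕ) (P : List (Finset ℕ)) : List (Fin (K + 1) × Finset (Fin (K + 1))) :=
  List.ofFn fun t : Fin (a * P.length) => vtx K (t / a) (P.getD (t / a) ∅)

theorem tok_length (K a : ℕ) (P : List (Finset ℕ)) : (tok K a P).length = a * P.length := by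
  simp [tok]

theorem tok_getElem (K a : ℕ) (P : List (Finset ℕ)) (t : ℕ) (ht : t < (tok K a P).length) :
    (tok K a P)[t] = vtx K (t / a) (P.getD (t / a) ∅) := by
  simp [tok]

theorem tok_take (K a : ℕ) (P : List (Finset ℕ)) (q : ℕ) (hq : q < P.length) :
    tok K a (P.take (q + 1)) = (tok K a P).take (a * (q + 1)) := by
  have hl : (P.take (q + 1)).length = q + 1 := by
    rw [List.length_take]; omega
  have hle : a * (q + 1) ≤ a * P.length := Nat.mul_le_mul_left _ (by omega)
  apply List.ext_getElem
  · rw [tok_length, hl, List.length_take, tok_length]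
    omega
  · intro t h1 h2
    rw [List.getElem_take, tok_getElem, tok_getElem]
    rw [tok_length, hl] at h1
    have h3 : t / a < q + 1 := Nat.div_lt_of_lt_mul h1
    congr 1
    rw [List.getD_eq_getElem?_getD, List.getD_eq_getElem?_getD, List.getElem?_take_of_lt h3]

variable {K a : ℕ}

/-- The set of colours used on the last block of tokens. -/
def blockColours (K a : ℕ) (σ : List (Fin (K + 1) × Finset (Fin (K + 1))) → ℕ)
    (P : List (Finset ℕ)) : Finset ℕ :=
  (Finset.range a).image fun i => σ ((tok K a P).take (a * (P.length - 1) + i + 1))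

theorem blockColours_take (σ : List (Fin (K + 1) × Finset (Fin (K + 1))) → ℕ)
    (P : List (Finset ℕ)) (q : ℕ) (hq : q < P.length) :
    blockColours K a σ (P.take (q + 1)) =
      (Finset.range a).image fun i => σ ((tok K a P).take (a * q + i + 1)) := by
  unfold blockColours
  apply Finset.image_congr
  intro i hi
  have hi' : i < a := by simpa using hi
  have hl : (P.take (q + 1)).length = q + 1 := by
    rw [List.length_take]; omega
  simp only []
  rw [hl, tok_take K a P q hq, List.take_take]
  congr 2
  have : a * (q + 1) = a * q + a := by ring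
  simp only [Nat.add_sub_cancel]
  omega

/-- All prefixes of the token sequence of a 2-coloured presentation are legal. -/
theorem legal_tok {w : ℕ} (haw : 2 * a ≤ w) (P : List (Finset ℕ))
    (hP : P.length ≤ K + 1) (χ : ℕ → Bool) (hχ : Col χ P) :
    Legal w (spoilerGraph (K + 1)) (tok K a P) := by
  intro h' hpre
  rw [SimpleGraph.chromaticNumber_le_iff_colorable]
  have hlen : h'.length ≤ a * P.length := by
    have := hpre.length_le
    rwa [tok_length] at this
  have hget : ∀ i : Fin h'.length, h'.get i = vtx K (i / a) (P.getD (i / a) ∅) := by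
    intro i
    rw [List.get_eq_getElem, hpre.getElem i.2, tok_getElem]
  have hdiv : ∀ i : Fin h'.length, (i : ℕ) / a < P.length := by
    intro i
    exact Nat.div_lt_of_lt_mul (lt_of_lt_of_le i.2 hlen)
  have hapos : ∀ i : Fin h'.length, 0 < a := by
    intro i
    rcases Nat.eq_zero_or_pos a with h | h
    · exfalso
      have := i.2
      rw [h] at hlen
      omega
    · exact h
  -- the colouring by `Bool × ℕ` restricted to `Bool × Fin a`
  rcases Nat.eq_zero_or_pos a with ha0 | ha0
  · -- no tokens
    have : IsEmpty (Fin h'.length) := ⟨fun i => by have := hapos i; omega⟩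
    exact SimpleGraph.Colorable.of_isEmpty _
  let C : (tokenGraph (spoilerGraph (K + 1)) h').Coloring (Bool × Fin a) :=
    SimpleGraph.Coloring.mk (fun i => (χ (i / a), ⟨(i : ℕ) % a, Nat.mod_lt _ ha0⟩)) (by
      intro i j hij heq
      rw [Prod.mk.injEq, Fin.mk.injEq] at heq
      obtain ⟨h1, h2⟩ := heq
      obtain ⟨hne, hor⟩ := hij
      have hi := hdiv i
      have hj := hdiv j
      rcases hor with h | h
      · rw [hget i, hget j] at h
        have h3 : ((i : ℕ) / a) = (j : ℕ) / a := by
          have e1 := vtx_fst K (i / a) (P.getD (i / a) ∅) (by omega)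
          have e2 := vtx_fst K (j / a) (P.getD (j / a) ∅) (by omega)
          rw [h] at e1
          omega
        apply hne
        apply Fin.ext
        rw [← Nat.div_add_mod (i : ℕ) a, ← Nat.div_add_mod (j : ℕ) a, h3, h2]
      · rw [hget i, hget j, adj_vtx _ _ _ _ _ (by omega) (by omega)] at h
        rcases h with ⟨_, h4⟩ | ⟨_, h4⟩
        · rw [List.getD_eq_getElem _ _ hj] at h4
          exact (hχ _ hj _ h4).2 h1
        · rw [List.getD_eq_getElem _ _ hi] at h4
          exact (hχ _ hi _ h4).2 h1.symm)
  have hcol := C.colorable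
  simp only [Fintype.card_prod, Fintype.card_bool, Fintype.card_fin] at hcol
  exact hcol.mono haw

theorem resp_of_guarantees {w N : ℕ} (haw : 2 * a ≤ w)
    (σ : List (Fin (K + 1) × Finset (Fin (K + 1))) → ℕ)
    (hσ : Guarantees w (spoilerGraph (K + 1)) σ N) :
    Resp (blockColours K a σ) a (K + 1) := by
  constructor
  · intro p S ⟨χ, hχ⟩ hp
    have hlenP : (p ++ [S]).length = p.length + 1 := by simp
    have hleg := legal_tok (K := K) haw (p ++ [S]) (by omega) χ hχ
    have hproper := (hσ _ hleg).1
    unfold blockColours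
    rw [Finset.card_image_of_injOn, Finset.card_range]
    intro i hi j hj hij
    have hi' : i < a := by simpa using hi
    have hj' : j < a := by simpa using hj
    simp only [hlenP, Nat.add_sub_cancel] at hij
    by_contra hne
    have e1 : a * (p.length + 1) = a * p.length + a := by ring
    have hli : a * p.length + i < (tok K a (p ++ [S])).length := by
      rw [tok_length, hlenP, e1]; omega
    have hlj : a * p.length + j < (tok K a (p ++ [S])).length := by
      rw [tok_length, hlenP, e1]; omega
    have hdi : (a * p.length + i) / a = p.length := by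
      rw [Nat.mul_add_div (by omega), Nat.div_eq_of_lt hi', Nat.add_zero]
    have hdj : (a * p.length + j) / a = p.length := by
      rw [Nat.mul_add_div (by omega), Nat.div_eq_of_lt hj', Nat.add_zero]
    apply hproper ⟨_, hli⟩ ⟨_, hlj⟩ ?_ hij
    refine ⟨?_, Or.inl ?_⟩
    · intro h
      rw [Fin.mk.injEq] at h
      omega
    · rw [List.get_eq_getElem, List.get_eq_getElem, tok_getElem, tok_getElem, hdi, hdj]
  · intro p S ⟨χ, hχ⟩ hp q hq
    have hlenP : (p ++ [S]).length = p.length + 1 := by simp
    have hleg := legal_tok (K := K) haw (p ++ [S]) (by omega) χ hχ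
    have hproper := (hσ _ hleg).1
    have hqp : q < p.length := by
      have := hχ p.length (by omega) q (by simpa using hq)
      exact this.1
    have e0 : p.take (q + 1) = (p ++ [S]).take (q + 1) := by
      rw [List.take_append_of_le_length (by omega)]
    rw [e0, blockColours_take σ (p ++ [S]) q (by omega)]
    unfold blockColours
    rw [hlenP, Nat.add_sub_cancel]
    rw [Finset.disjoint_left]
    intro x hx hx'
    obtain ⟨i, hi, rfl⟩ := Finset.mem_image.1 hx
    obtain ⟨j, hj, hij⟩ := Finset.mem_image.1 hx'
    have hi' : i < a := by simpa using hi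
    have hj' : j < a := by simpa using hj
    have e1 : a * (p.length + 1) = a * p.length + a := by ring
    have e2 : a * q + a ≤ a * p.length := by
      have : a * (q + 1) ≤ a * p.length := Nat.mul_le_mul_left _ (by omega)
      have e3 : a * (q + 1) = a * q + a := by ring
      omega
    have hli : a * q + i < (tok K a (p ++ [S])).length := by
      rw [tok_length, hlenP, e1]; omega
    have hlj : a * p.length + j < (tok K a (p ++ [S])).length := by
      rw [tok_length, hlenP, e1]; omega
    have hdi : (a * q + i) / a = q := by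
      rw [Nat.mul_add_div (by omega), Nat.div_eq_of_lt hi', Nat.add_zero]
    have hdj : (a * p.length + j) / a = p.length := by
      rw [Nat.mul_add_div (by omega), Nat.div_eq_of_lt hj', Nat.add_zero]
    apply hproper ⟨_, hli⟩ ⟨_, hlj⟩ ?_ hij.symm
    refine ⟨?_, Or.inr ?_⟩
    · intro h
      rw [Fin.mk.injEq] at h
      omega
    · rw [List.get_eq_getElem, List.get_eq_getElem, tok_getElem, tok_getElem, hdi, hdj,
        adj_vtx _ _ _ _ _ (by omega) (by omega)]
      left
      refine ⟨hqp, ?_⟩
      simpa using hq

/-- The lower bound. -/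
theorem guarantees_lower {w N k : ℕ}
    (σ : List (Fin (2 ^ k + 1) × Finset (Fin (2 ^ k + 1))) → ℕ)
    (hσ : Guarantees w (spoilerGraph (2 ^ k + 1)) σ N) : k * (w / 2) ≤ 2 * N := by
  have haw : 2 * (w / 2) ≤ w := by omega
  generalize w / 2 = a at haw ⊢
  have hR := resp_of_guarantees (K := 2 ^ k) haw σ hσ
  obtain ⟨e, Y, he, hY, hχ, hcard⟩ := forcing hR k [] ⟨fun _ => true, by
    intro j hj; simp at hj⟩ (by simp; omega)
  simp only [List.nil_append, List.length_nil, Nat.zero_le, true_and, Nat.zero_add] at *
  obtain ⟨χ', hχ', -, -⟩ := hχ (fun _ => true) (by intro j hj; simp at hj) true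
  have hleg := legal_tok (K := 2 ^ k) haw e (by omega) χ' hχ'
  have hN := (hσ _ hleg).2
  refine hcard.trans (Nat.mul_le_mul_left 2 (le_trans (Finset.card_le_card ?_) hN))
  intro x hx
  unfold U at hx
  obtain ⟨q, hq, hx⟩ := Finset.mem_biUnion.1 hx
  have hqe := hY q hq
  rw [blockColours_take σ e q hqe] at hx
  obtain ⟨i, hi, rfl⟩ := Finset.mem_image.1 hx
  have hi' : i < a := by simpa using hi
  have e2 : a * q + a ≤ a * e.length := by
    have : a * (q + 1) ≤ a * e.length := Nat.mul_le_mul_left _ (by omega)
    have e3 : a * (q + 1) = a * q + a := by ring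
    omega
  rw [Finset.mem_image]
  refine ⟨⟨a * q + i, ?_⟩, Finset.mem_univ _, rfl⟩
  rw [tok_length]
  omega

/-- A legal play has at most `|V| w` tokens. -/
theorem legal_length {V : Type} [Fintype V] {w : ℕ} {G : SimpleGraph V} {h : List V}
    (hh : Legal w G h) : h.length ≤ Fintype.card V * w := by
  have h1 := hh h List.prefix_rfl
  rw [SimpleGraph.chromaticNumber_le_iff_colorable] at h1
  obtain ⟨C⟩ := h1
  have hinj : Function.Injective (fun i : Fin h.length => (h.get i, C i)) := by
    intro i j hij
    rw [Prod.mk.injEq] at hij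
    by_contra hne
    exact C.valid (v := i) (w := j) ⟨hne, Or.inl hij.1⟩ hij.2
  have := Fintype.card_le_of_injective _ hinj
  simpa using this

/-- Algorithm can always win with `|V| w` colours, so that `value` is a minimum. -/
theorem exists_guarantees {V : Type} [Fintype V] (w : ℕ) (G : SimpleGraph V) :
    ∃ σ : List V → ℕ, Guarantees w G σ (Fintype.card V * w) := by
  refine ⟨fun h => h.length, ?_⟩
  intro h hh
  have hc : ∀ i : Fin h.length, colourOf (fun h => h.length) h i = i + 1 := by
    intro i
    show (h.take (i + 1)).length = i + 1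
    rw [List.length_take]
    have := i.2
    omega
  refine ⟨?_, ?_⟩
  · intro i j hij
    rw [hc, hc]
    intro h1
    exact hij.1 (Fin.ext (by omega))
  · refine le_trans Finset.card_image_le ?_
    rw [Finset.card_univ, Fintype.card_fin]
    exact legal_length hh

theorem value_mem {V : Type} [Fintype V] (w : ℕ) (G : SimpleGraph V) :
    ∃ σ : List V → ℕ, Guarantees w G σ (value w G) :=
  Nat.sInf_mem (s := {N : ℕ | ∃ σ : List V → ℕ, Guarantees w G σ N})
    ⟨_, exists_guarantees w G⟩

theorem value_le {V : Type} [Fintype V] (w : ℕ) (G : SimpleGraph V) :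
    value w G ≤ Fintype.card V * w :=
  Nat.sInf_le (exists_guarantees w G)

end Pool.Agent.Lib.MP_a6415b_co
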